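import Pool.Agent.Run7.h900.MX.Stm

/-!
# Project MX (helper900): the piece FIN
-/

set_option autoImplicit false

universe u

namespace Run7.h957.MX

open Run7.h900.MX
open scoped Pointwise

section group
variable {Γ : Type u} [Group Γ]

/-- the product of a subgroup and a subgroup normalised by it -/
def prodS (T S : Subgroup Γ) (h : Nrm T S) : Subgroup Γ where
  carrier := (T : Set Γ) * (S : Set Γ)
  one_mem' := ⟨1, T.one_mem, 1, S.one_mem, mul_one 1⟩
  mul_mem' := by
    rintro _ _ ⟨t, ht, x, hx, rfl⟩ ⟨t', ht', x', hx', rfl⟩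
    refine ⟨t * t', T.mul_mem ht ht', t'⁻¹ * x * t'⁻¹⁻¹ * x',
      S.mul_mem (h t'⁻¹ (T.inv_mem ht') x hx) hx', ?_⟩
    simp only [inv_inv]
    group
  inv_mem' := by
    rintro _ ⟨t, ht, x, hx, rfl⟩
    refine ⟨t⁻¹, T.inv_mem ht, t * x⁻¹ * t⁻¹, h t ht _ (S.inv_mem hx), ?_⟩
    simp only
    group

lemma mem_prodS {T S : Subgroup Γ} {h : Nrm T S} {g : Γ} :
    g ∈ prodS T S h ↔ ∃ t ∈ T, ∃ x ∈ S, t * x = g := Iff.rfl

lemma le_prodS_left {T S : Subgroup Γ} (h : Nrm T S) : T ≤ prodS T S h :=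
  fun t ht => ⟨t, ht, 1, S.one_mem, mul_one t⟩

lemma le_prodS_right {T S : Subgroup Γ} (h : Nrm T S) : S ≤ prodS T S h :=
  fun x hx => ⟨1, T.one_mem, x, hx, one_mul x⟩

/-- in a finite group: a product of a soluble group and a normalised s-group -/
lemma prod_fin [Finite Γ] {s : ℕ} (hs : s.Prime) {A B Q : Subgroup Γ} (hAB : Nrm A B)
    (hA : Group.IsSolvable A) (hB : IsPGroup s B) (hAQ : A ≤ Q) (hBQ : B ≤ Q)
    (hQ : ∀ g ∈ Q, ∃ a ∈ A, ∃ b ∈ B, a * b = g) :
    Group.IsSolvable Q ∧ ∀ q : ℕ, q.Prime → q ∣ Nat.card Q → q ∣ Nat.card A ∨ q = s := by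
  have : Fact s.Prime := ⟨hs⟩
  have hnorm : (B.subgroupOf Q).Normal := by
    constructor
    rintro ⟨n, hnQ⟩ hn ⟨g, hg⟩
    rw [Subgroup.mem_subgroupOf] at hn ⊢
    obtain ⟨a, ha, b, hb, rfl⟩ := hQ g hg
    show a * b * n * (a * b)⁻¹ ∈ B
    have h1 : a * b * n * (a * b)⁻¹ = a * (b * n * b⁻¹) * a⁻¹ := by group
    rw [h1]
    exact hAB a ha _ (B.mul_mem (B.mul_mem hb hn) (B.inv_mem hb))
  -- the map from `A`
  let φ : A →* Q ⧸ B.subgroupOf Q :=
    (QuotientGroup.mk' (B.subgroupOf Q)).comp (Subgroup.inclusion hAQ)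
  have hφ : Function.Surjective φ := by
    intro y
    obtain ⟨⟨g, hg⟩, rfl⟩ := QuotientGroup.mk'_surjective (B.subgroupOf Q) y
    obtain ⟨a, ha, b, hb, hab⟩ := hQ g hg
    refine ⟨⟨a, ha⟩, ?_⟩
    show QuotientGroup.mk' (B.subgroupOf Q) (⟨a, hAQ ha⟩ : Q) =
      QuotientGroup.mk' (B.subgroupOf Q) (⟨g, hg⟩ : Q)
    rw [QuotientGroup.mk'_apply, QuotientGroup.mk'_apply, QuotientGroup.eq,
      Subgroup.mem_subgroupOf]
    show a⁻¹ * g ∈ B
    rw [← hab, inv_mul_cancel_left]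
    exact hb
  have hBs : IsPGroup s (B.subgroupOf Q) := by
    intro x
    obtain ⟨k, hk⟩ := hB ⟨x.1.1, Subgroup.mem_subgroupOf.1 x.2⟩
    refine ⟨k, ?_⟩
    apply Subtype.ext
    apply Subtype.ext
    have := congrArg Subtype.val hk
    simpa using this
  constructor
  · have h1 : Group.IsSolvable (Q ⧸ B.subgroupOf Q) := Group.isSolvable_of_surjective hφ
    have h2 : Group.IsSolvable (B.subgroupOf Q) := by
      have := hBs.isNilpotent
      infer_instance
    exact Group.isSolvable_of_ker_le_range (B.subgroupOf Q).subtype (QuotientGroup.mk' (B.subgroupOf Q))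
      (by simp)
  · intro q hq hqd
    rw [Subgroup.card_eq_card_quotient_mul_card_subgroup (B.subgroupOf Q)] at hqd
    rcases (Nat.Prime.dvd_mul hq).1 hqd with h1 | h1
    · left
      exact h1.trans (Subgroup.card_dvd_of_surjective φ hφ)
    · right
      obtain ⟨n, hn⟩ := IsPGroup.iff_card.1 hBs
      rw [hn] at h1
      exact (Nat.prime_dvd_prime_iff_eq hq hs).1 (hq.dvd_of_dvd_pow h1)

/-- p-nilpotency passes to normal subgroups -/
lemma PNil.mono {p : ℕ} {M N : Subgroup Γ} (h : PNil p M) (hNM : N ≤ M) (hN : N.Normal) :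
    PNil p N := by
  obtain ⟨K, hK1, hK2, hK3, hK4⟩ := h
  refine ⟨K ⊓ N, Subgroup.normal_inf_normal K N, inf_le_right, fun hd => hK3
    (hd.trans (Subgroup.card_dvd_of_le inf_le_left)), ?_⟩
  intro x hx
  obtain ⟨k, hk⟩ := hK4 x (hNM hx)
  exact ⟨k, hk, N.pow_mem hx _⟩

end group

theorem t_FIN (hPN : S_PN.{u}) (hHALL : S_HALL.{u}) (hSYL : S_SYL.{u}) : S_FIN.{u} := by
  classical
  intro G _ _ _ _ _ _ hmax
  have hfinq : ∀ U : OpenNormalSubgroup G, Finite (G ⧸ U.toSubgroup) := fun U =>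
    Subgroup.quotient_finite_of_isOpen U.toSubgroup U.isOpen'
  have hsurj : ∀ U : OpenNormalSubgroup G, Function.Surjective (pr U) := fun U =>
    QuotientGroup.mk'_surjective _
  obtain ⟨T, hTF, hTmax⟩ := hmax {T : Subgroup G | IsClosed (T : Set G) ∧
      (∀ U : OpenNormalSubgroup G, Group.IsSolvable (T.map (pr U))) ∧
      ∃ π : Finset ℕ, (∀ p ∈ π, p.Prime) ∧ ∀ (U : OpenNormalSubgroup G) (q : ℕ), q.Prime →
        q ∣ Nat.card (T.map (pr U)) → q ∈ π}
    ⟨⊥, by
      refine ⟨?_, fun U => ?_, ∅, fun p hp => absurd hp (Finset.notMem_empty p), ?_⟩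
      · rw [Subgroup.coe_bot]
        exact isClosed_singleton
      · rw [Subgroup.map_bot]
        infer_instance
      · intro U q hq hd
        rw [Subgroup.map_bot, Subgroup.card_bot] at hd
        exact absurd (Nat.dvd_one.1 hd) hq.one_lt.ne'⟩
    (fun H hH => hH.1)
  obtain ⟨hTc, hTs, π, hπ, hTπ⟩ := hTF
  -- the open subgroup `N`
  have hN : ∀ ρ : Finset ℕ, (∀ p ∈ ρ, p.Prime) → ∃ N : OpenNormalSubgroup G, ∀ p ∈ ρ,
      ∀ U : OpenNormalSubgroup G, PNil p (N.toSubgroup.map (pr U)) := by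
    intro ρ
    induction ρ using Finset.induction_on with
    | empty =>
      intro _
      exact ⟨⟨⟨⊤, isOpen_univ⟩, inferInstance⟩, fun p hp => absurd hp (Finset.notMem_empty p)⟩
    | insert a ρ ha ih =>
      intro hρ
      obtain ⟨N1, hN1⟩ := ih fun p hp => hρ p (Finset.mem_insert_of_mem hp)
      obtain ⟨N2, hN2⟩ := hPN G hmax a (hρ a (Finset.mem_insert_self a ρ))
      refine ⟨N1 ⊓ N2, fun p hp U => ?_⟩
      have hnor : ((N1 ⊓ N2).toSubgroup.map (pr U)).Normal :=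
        Subgroup.Normal.map (N1 ⊓ N2).isNormal' _ (hsurj U)
      rcases Finset.mem_insert.1 hp with rfl | hp'
      · exact PNil.mono (hN2 U) (Subgroup.map_mono fun x hx => hx.2) hnor
      · exact PNil.mono (hN1 p hp' U) (Subgroup.map_mono fun x hx => hx.1) hnor
  obtain ⟨N, hNp⟩ := hN π hπ
  obtain ⟨K, hKn, hKc, hKN, hKπ, hKm⟩ := hHALL G N π hπ hNp
  -- the claim
  have hclaim : ∀ U : OpenNormalSubgroup G, K.map (pr U) = ⊥ := by
    by_contra hcon
    push Not at hcon
    obtain ⟨U0, hU0⟩ := hcon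
    have := hfinq U0
    have hcard : Nat.card (K.map (pr U0)) ≠ 1 := fun h => hU0 (Subgroup.card_eq_one.1 h)
    obtain ⟨s, hs, hsd⟩ := Nat.exists_prime_and_dvd hcard
    have hsπ : s ∉ π := fun h => hKπ U0 s h hsd
    have hTK : Nrm T K := fun t _ x hx => hKn.conj_mem x hx t
    have hcop : ∀ U : OpenNormalSubgroup G,
        (Nat.card (T.map (pr U))).Coprime (Nat.card (K.map (pr U))) := by
      intro U
      by_contra hnc
      obtain ⟨q, hq, h1, h2⟩ := Nat.Prime.not_coprime_iff_dvd.1 hnc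
      exact hKπ U q (hTπ U q hq h1) h2
    obtain ⟨S, ⟨hSc, hSK, hTS, hSi⟩, hSp⟩ := hSYL G T K hKc hTK hTs hcop s hs
    have hSpg : ∀ U : OpenNormalSubgroup G, IsPGroup s (S.map (pr U)) := by
      rintro U ⟨y, hy⟩
      obtain ⟨x, hx, rfl⟩ := hy
      obtain ⟨k, hk⟩ := hSp U x hx
      refine ⟨k, Subtype.ext ?_⟩
      show (pr U x) ^ s ^ k = 1
      rw [← map_pow]
      exact (QuotientGroup.eq_one_iff _).2 hk
    -- the larger member
    have hT'mem : prodS T S hTS ∈ {T : Subgroup G | IsClosed (T : Set G) ∧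
        (∀ U : OpenNormalSubgroup G, Group.IsSolvable (T.map (pr U))) ∧
        ∃ π : Finset ℕ, (∀ p ∈ π, p.Prime) ∧ ∀ (U : OpenNormalSubgroup G) (q : ℕ), q.Prime →
          q ∣ Nat.card (T.map (pr U)) → q ∈ π} := by
      have hfin : ∀ U : OpenNormalSubgroup G,
          Group.IsSolvable ((prodS T S hTS).map (pr U)) ∧ ∀ q : ℕ, q.Prime →
            q ∣ Nat.card ((prodS T S hTS).map (pr U)) →
              q ∣ Nat.card (T.map (pr U)) ∨ q = s := by
        intro U
        have := hfinq U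
        refine prod_fin hs (A := T.map (pr U)) (B := S.map (pr U)) ?_ (hTs U) (hSpg U)
          (Subgroup.map_mono (le_prodS_left hTS)) (Subgroup.map_mono (le_prodS_right hTS)) ?_
        · rintro _ ⟨t, ht, rfl⟩ _ ⟨x, hx, rfl⟩
          exact ⟨t * x * t⁻¹, hTS t ht x hx, by simp⟩
        · rintro _ ⟨_, ⟨t, ht, x, hx, rfl⟩, rfl⟩
          exact ⟨pr U t, ⟨t, ht, rfl⟩, pr U x, ⟨x, hx, rfl⟩, (map_mul _ _ _).symm⟩
      refine ⟨?_, fun U => (hfin U).1, insert s π, ?_, ?_⟩
      · exact (hTc.isCompact.mul hSc.isCompact).isClosed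
      · intro p hp
        rcases Finset.mem_insert.1 hp with rfl | hp'
        · exact hs
        · exact hπ p hp'
      · intro U q hq hd
        rcases (hfin U).2 q hq hd with h1 | h1
        · exact Finset.mem_insert_of_mem (hTπ U q hq h1)
        · rw [h1]
          exact Finset.mem_insert_self s π
    have hT'eq := hTmax _ hT'mem (le_prodS_left hTS)
    have hST : S ≤ T := by
      have h1 := le_prodS_right hTS
      rwa [hT'eq] at h1
    -- `S` is trivial modulo `U0`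
    have hSbot : S.map (pr U0) = ⊥ := by
      have : Fact s.Prime := ⟨hs⟩
      obtain ⟨n, hn⟩ := IsPGroup.iff_card.1 (hSpg U0)
      rw [← Subgroup.card_eq_one, hn]
      rcases Nat.eq_zero_or_pos n with h0 | h0
      · rw [h0, pow_zero]
      · exfalso
        refine hsπ (hTπ U0 s hs ?_)
        refine dvd_trans ?_ (Subgroup.card_dvd_of_le (Subgroup.map_mono hST))
        rw [hn]
        exact dvd_pow_self s h0.ne'
    have h1 := hSi U0
    rw [hSbot, Subgroup.relIndex_bot_left] at h1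
    exact h1 hsd
  -- the end
  have hNfin : Finite (G ⧸ N.toSubgroup) := hfinq N
  have hNi : N.toSubgroup.index ≠ 0 := Subgroup.index_ne_zero_of_finite
  refine ⟨π ∪ N.toSubgroup.index.primeFactors, ?_, ?_⟩
  · intro p hp
    rcases Finset.mem_union.1 hp with h1 | h1
    · exact hπ p h1
    · exact Nat.prime_of_mem_primeFactors h1
  · intro U q hq hd
    have := hfinq U
    have : Fact q.Prime := ⟨hq⟩
    rw [← Subgroup.card_mul_index (N.toSubgroup.map (pr U))] at hd
    rw [Finset.mem_union]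
    rcases (Nat.Prime.dvd_mul hq).1 hd with h1 | h1
    · left
      obtain ⟨⟨y, hy⟩, hyo⟩ := exists_prime_orderOf_dvd_card' q h1
      obtain ⟨x, hx, rfl⟩ := hy
      obtain ⟨m, hm0, hmπ, hm⟩ := hKm U x hx
      rw [hclaim U, Subgroup.mem_bot, map_pow] at hm
      refine hmπ q hq ?_
      rw [← hyo]
      refine orderOf_dvd_of_pow_eq_one ?_
      exact Subtype.ext hm
    · right
      rw [Nat.mem_primeFactors]
      exact ⟨hq, h1.trans (Subgroup.index_map_dvd _ (hsurj U)), hNi⟩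

end Run7.h957.MX
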